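import Mathlib

set_option autoImplicit false

namespace Pool.Agent.Results.MP_8db76d_al.Q1

variable {F A : Type} [Field F] [AddCommGroup A] [Module F A]

def Eig (m : A →ₗ[F] A →ₗ[F] A) (a : A) (S : Set F) : Submodule F A :=
  ⨆ l ∈ S, Module.End.eigenspace (m a) l

def IsPrimAxis (m : A →ₗ[F] A →ₗ[F] A) (E : Set F) (star : F → F → Set F) (a : A) : Prop :=
  a ≠ 0 ∧ m a a = a ∧ Eig m a E = ⊤ ∧ Eig m a {1} = Submodule.span F {a} ∧
    ∀ l ∈ E, ∀ k ∈ E, ∀ x ∈ Eig m a {l}, ∀ y ∈ Eig m a {k}, m x y ∈ Eig m a (star l k)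

def Generates (m : A →ₗ[F] A →ₗ[F] A) (X : Set A) : Prop :=
  ∀ S : Submodule F A, X ⊆ S → (∀ x ∈ S, ∀ y ∈ S, m x y ∈ S) → S = ⊤

def Indec (m : A →ₗ[F] A →ₗ[F] A) : Prop :=
  Nontrivial A ∧ ∀ I J : Submodule F A, (∀ x ∈ I, ∀ y, m x y ∈ I) → (∀ x ∈ J, ∀ y, m x y ∈ J) →
    IsCompl I J → (∀ x ∈ I, ∀ y ∈ J, m x y = 0) → I = ⊥ ∨ J = ⊥

def SeressLaw (E : Set F) (star : F → F → Set F) : Prop :=
  1 ∈ E ∧ 0 ∈ E ∧ ∀ l ∈ E, (∀ k ∈ E, star l k ⊆ E ∧ star l k = star k l) ∧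
    star 0 l ⊆ {l} ∧ star 1 l ⊆ {l}

def mu : (Fin 9 → ℚ) →ₗ[ℚ] (Fin 9 → ℚ) →ₗ[ℚ] (Fin 9 → ℚ) :=
  LinearMap.mk₂ ℚ (fun x y => ![x 0 * y 0 + 2 * (x 0 * y 1 + x 1 * y 0),
      x 1 * y 1 + 2 * (x 0 * y 1 + x 1 * y 0),
      x 0 * y 1 + x 1 * y 0 + 3 * ((x 0 + x 1) * y 2 + x 2 * (y 0 + y 1)), x 2 * y 2,
      x 4 * y 4 + 2 * (x 4 * y 5 + x 5 * y 4), x 5 * y 5 + 2 * (x 4 * y 5 + x 5 * y 4),
      x 4 * y 5 + x 5 * y 4 + 3 * ((x 4 + x 5) * y 6 + x 6 * (y 4 + y 5)), x 6 * y 6,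
      x 3 * y 7 + x 7 * y 3])
    (fun x x' y => by ext i; fin_cases i <;> simp <;> ring)
    (fun c x y => by ext i; fin_cases i <;> simp <;> ring)
    (fun x y y' => by ext i; fin_cases i <;> simp <;> ring)
    (fun c x y => by ext i; fin_cases i <;> simp <;> ring)

def e (i : Fin 9) : Fin 9 → ℚ := Pi.single i 1

def st (l k : ℚ) : Set ℚ :=
  {v | v ∈ ({1, 0, 2, 3} : Set ℚ) ∧ (l = 0 ∨ l = 1 → v = k) ∧ (k = 0 ∨ k = 1 → v = l)}

lemma comm (x y : Fin 9 → ℚ) : mu x y = mu y x := by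
  ext i; fin_cases i <;> simp [mu] <;> ring

lemma mem1 {m : A →ₗ[F] A →ₗ[F] A} {a x : A} {l : F} : x ∈ Eig m a {l} ↔ m a x = l • x := by
  simp [Eig]

lemma mem2 {m : A →ₗ[F] A →ₗ[F] A} {a x : A} {l : F} {S : Set F} (hl : l ∈ S)
    (h : m a x = l • x) : x ∈ Eig m a S :=
  (le_iSup₂_of_le (f := fun l (_ : l ∈ S) => Module.End.eigenspace (m a) l) l hl le_rfl)
    (Module.End.mem_eigenspace_iff.2 h)

lemma axis (i j k : Fin 9) (h0 : mu (e i) (e i) = e i)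
    (h1 : ∀ x, mu (e i) x = x → x = x i • e i)
    (h2 : mu (e i) (e j + (2 : ℚ) • e i - e k) = (2 : ℚ) • (e j + (2 : ℚ) • e i - e k))
    (h3 : mu (e i) (e k) = (3 : ℚ) • e k)
    (h4 : ∀ x : Fin 9 → ℚ, mu (e i) (x - x i • e i - x j • e j - x k • e k) = 0)
    (h5 : ∀ x y, mu (e i) y = 0 → mu (e i) (mu x y) = mu (mu (e i) x) y) :
    IsPrimAxis mu {1, 0, 2, 3} st (e i) := by
  have top : Eig mu (e i) {1, 0, 2, 3} = ⊤ := eq_top_iff.2 fun x _ => by
    have := add_mem (add_mem (add_mem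
      (Submodule.smul_mem _ (x i - 2 * x j) (mem2 (S := {1, 0, 2, 3}) (l := 1) (by simp)
        (by rw [h0, one_smul])))
      (Submodule.smul_mem _ (x j) (mem2 (l := 2) (by simp) h2)))
      (Submodule.smul_mem _ (x k + x j) (mem2 (l := 3) (by simp) h3)))
      (mem2 (l := 0) (by simp) (by rw [h4 x, zero_smul]))
    convert this using 1
    module
  have key : ∀ l ∈ ({1, 0, 2, 3} : Set ℚ), ∀ c : ℚ, c = 0 ∨ c = 1 → ∀ x y, mu (e i) x = l • x →
      mu (e i) y = c • y → mu x y ∈ Eig mu (e i) (st l c) := by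
    intro l hl c hc x y hx hy
    have h6 : mu (e i) (mu x y) = l • mu x y := by
      rcases hc with rfl | rfl
      · rw [h5 x y (by simpa using hy), hx]; simp
      · rw [h1 y (by simpa using hy), map_smul, map_smul, comm x, hx, map_smul, hx, smul_comm]
    by_cases hl' : (l = 0 ∨ l = 1) ∧ l ≠ c
    · have : mu x y = 0 := by
        obtain ⟨rfl | rfl, h⟩ := hl' <;> rcases hc with rfl | rfl
        · exact absurd rfl h
        · rw [h1 y (by simpa using hy), map_smul, comm x, hx]; simp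
        · rw [comm, h1 x (by simpa using hx), map_smul, comm y, hy]; simp
        · exact absurd rfl h
      rw [this]; exact zero_mem _
    · exact mem2 ⟨hl, fun h => by tauto, fun _ => rfl⟩ h6
  refine ⟨fun h => by simpa [e] using congrFun h i, h0, top, ?_, fun l hl c hc x hx y hy => ?_⟩
  · ext x
    rw [mem1, Submodule.mem_span_singleton, one_smul]
    exact ⟨fun h => ⟨_, (h1 x h).symm⟩, fun ⟨c, h⟩ => by rw [← h, map_smul, h0]⟩
  · rw [mem1] at hx hy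
    by_cases h : c = 0 ∨ c = 1
    · exact key l hl c h x y hx hy
    by_cases h' : l = 0 ∨ l = 1
    · have : st l c = st c l := by ext; simp only [st, Set.mem_setOf_eq]; tauto
      rw [comm, this]
      exact key c hc l h' y x hy hx
    · have : st l c = {1, 0, 2, 3} :=
        Set.ext fun _ => ⟨fun h => h.1, fun h0 => ⟨h0, fun h1 => absurd h1 h', fun h1 => absurd h1 h⟩⟩
      rw [this, top]; trivial

lemma axes : ∀ a ∈ ({e 0, e 1, e 4, e 5} : Set (Fin 9 → ℚ)), IsPrimAxis mu {1, 0, 2, 3} st a := by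
  rintro _ (rfl | rfl | rfl | rfl)
  on_goal 1 => refine axis 0 1 2 ?_ (fun x h => ?_) ?_ ?_ (fun x => ?_) fun x y h => ?_
  on_goal 7 => refine axis 1 0 2 ?_ (fun x h => ?_) ?_ ?_ (fun x => ?_) fun x y h => ?_
  on_goal 13 => refine axis 4 5 6 ?_ (fun x h => ?_) ?_ ?_ (fun x => ?_) fun x y h => ?_
  on_goal 19 => refine axis 5 4 6 ?_ (fun x h => ?_) ?_ ?_ (fun x => ?_) fun x y h => ?_
  all_goals
    try simp only [funext_iff, Fin.forall_fin_succ] at h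
    try simp [mu, e] at h
    ext i
    fin_cases i <;> simp [mu, e] <;> grind

lemma gen : Generates mu ({e 0, e 1, e 4, e 5} : Set (Fin 9 → ℚ)) := by
  intro S hX hS
  have h0 : e 0 ∈ S := hX (by simp)
  have h1 : e 1 ∈ S := hX (by simp)
  have h4 : e 4 ∈ S := hX (by simp)
  have h5 : e 5 ∈ S := hX (by simp)
  have h2 : e 2 ∈ S := by
    convert sub_mem (hS _ h0 _ h1) (S.smul_mem 2 (add_mem h0 h1)) using 1
    ext i; fin_cases i <;> simp [mu, e]
  have h6 : e 6 ∈ S := by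
    convert sub_mem (hS _ h4 _ h5) (S.smul_mem 2 (add_mem h4 h5)) using 1
    ext i; fin_cases i <;> simp [mu, e]
  have h3 : e 3 ∈ S := by
    convert hS _ h2 _ h2 using 1
    ext i; fin_cases i <;> simp [mu, e]
  have h7 : e 7 ∈ S := by
    convert hS _ h6 _ h6 using 1
    ext i; fin_cases i <;> simp [mu, e]
  have h8 : e 8 ∈ S := by
    convert hS _ h3 _ h7 using 1
    ext i; fin_cases i <;> simp [mu, e]
  rw [eq_top_iff, ← (Pi.basisFun ℚ (Fin 9)).span_eq, Submodule.span_le]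
  rintro _ ⟨i, rfl⟩
  rw [Pi.basisFun_apply]
  fin_cases i <;> assumption

theorem result : ∃ (n : ℕ) (m : (Fin n → ℚ) →ₗ[ℚ] (Fin n → ℚ) →ₗ[ℚ] (Fin n → ℚ)) (E : Set ℚ)
    (star : ℚ → ℚ → Set ℚ) (X : Set (Fin n → ℚ)), (∀ x y, m x y = m y x) ∧ SeressLaw E star ∧
      (∀ a ∈ X, IsPrimAxis m E star a) ∧ Generates m X ∧ Indec m ∧
      ¬ (SimpleGraph.fromRel fun a b : X => m a b ≠ 0).Preconnected := by
  refine ⟨9, mu, {1, 0, 2, 3}, st, {e 0, e 1, e 4, e 5}, comm, ⟨by simp, by simp, fun l _ =>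
    ⟨fun k _ => ⟨fun v h => h.1, ?_⟩, fun v h => h.2.1 (Or.inl rfl), fun v h => h.2.1 (Or.inr rfl)⟩⟩,
    axes, gen, ⟨inferInstance, fun I J hI hJ hc h0 => ?_⟩, fun h => ?_⟩
  · ext; simp only [st, Set.mem_setOf_eq]; tauto
  · have side : ∀ a ∈ ({e 0, e 1, e 4, e 5} : Set (Fin 9 → ℚ)), a ∈ I ∨ a ∈ J := by
      intro a ha
      obtain ⟨-, a1, -, a2, -⟩ := axes a ha
      obtain ⟨x, hx, y, hy, h⟩ := Submodule.mem_sup.1 (hc.sup_eq_top ▸ Submodule.mem_top (x := a))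
      have h1 : mu a x = x := by
        have e1 : mu a x - x = y - mu a y := by
          rw [sub_eq_sub_iff_add_eq_add, ← map_add, add_comm y, h, a1]
        have : mu a x - x ∈ I ⊓ J := ⟨sub_mem (comm a x ▸ hI x hx a) hx,
          e1 ▸ sub_mem hy (comm a y ▸ hJ y hy a)⟩
        rwa [hc.inf_eq_bot, Submodule.mem_bot, sub_eq_zero] at this
      obtain ⟨c, hc'⟩ := Submodule.mem_span_singleton.1 (a2 ▸ mem1.2 (h1.trans (one_smul _ _).symm))
      by_cases h2 : c = 0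
      · rw [← h, ← hc', h2, zero_smul, zero_add]; exact Or.inr hy
      · exact Or.inl ((I.smul_mem_iff h2).1 (hc' ▸ hx))
    have wl : ∀ I J : Submodule ℚ (Fin 9 → ℚ), (∀ x ∈ I, ∀ y, mu x y ∈ I) →
        (∀ x ∈ J, ∀ y, mu x y ∈ J) → (∀ x ∈ I, ∀ y ∈ J, mu x y = 0) →
        (∀ a ∈ ({e 0, e 1, e 4, e 5} : Set (Fin 9 → ℚ)), a ∈ I ∨ a ∈ J) → e 0 ∈ I → I = ⊤ := by
      intro I J hI hJ h0 side h
      have a1 : e 1 ∈ I := (side _ (by simp)).resolve_right fun h' => by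
        simpa [mu, e] using congrFun (h0 _ h _ h') 2
      have a3 : e 3 ∈ I := by
        convert sub_mem (hI _ (hI _ h (e 1)) (e 2)) (I.smul_mem 4 (hI _ h (e 2))) using 1
        ext i; fin_cases i <;> simp [mu, e] <;> norm_num
      have a4 : e 4 ∈ I := (side _ (by simp)).resolve_right fun h' => by
        have := sub_mem (hJ _ (hJ _ h' (e 5)) (e 6)) (J.smul_mem 4 (hJ _ h' (e 6)))
        simpa [mu, e] using congrFun (h0 _ a3 _ this) 8
      have a5 : e 5 ∈ I := (side _ (by simp)).resolve_right fun h' => by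
        simpa [mu, e] using congrFun (h0 _ a4 _ h') 6
      exact gen I (by rintro _ (rfl | rfl | rfl | rfl) <;> assumption) fun x hx y _ => hI x hx y
    rcases side (e 0) (by simp) with h | h
    · exact Or.inr (eq_bot_of_top_isCompl (wl I J hI hJ h0 side h ▸ hc))
    · exact Or.inl (eq_bot_of_isCompl_top (wl J I hJ hI (fun x hx y hy => comm x y ▸ h0 y hy x hx)
        (fun a ha => (side a ha).symm) h ▸ hc))
  · have key : ∀ a b : ({e 0, e 1, e 4, e 5} : Set (Fin 9 → ℚ)),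
        (SimpleGraph.fromRel fun a b : ({e 0, e 1, e 4, e 5} : Set (Fin 9 → ℚ)) =>
          mu a b ≠ 0).Reachable a b → a.1 0 + a.1 1 = b.1 0 + b.1 1 := by
      rintro a b ⟨p⟩
      induction p with
      | nil => rfl
      | @cons u v w h _ ih =>
        rw [← ih]
        have h' : mu u v ≠ 0 := ((SimpleGraph.fromRel_adj _ _ _).1 h).2.elim id fun h => comm _ _ ▸ h
        obtain ⟨_, rfl | rfl | rfl | rfl⟩ := u <;> obtain ⟨_, rfl | rfl | rfl | rfl⟩ := v <;>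
          first
          | (simp [e]; done)
          | (exfalso; apply h'; ext i; fin_cases i <;> simp [mu, e])
    simpa [e] using key ⟨e 0, by simp⟩ ⟨e 4, by simp⟩ (h _ _)

end Pool.Agent.Results.MP_8db76d_al.Q1
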